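import Pool.Agent.Y716.C.DegZero
import Pool.Agent.Y716.D.Main

/-!
# Zero-cycles of degree zero on 100% of the Fano complete intersections over `ℚ`

Let `d 1, …, d s ≥ 2` with `d 1 + ⋯ + d s ≤ n`, so that the smooth complete intersections of
hypersurfaces of degrees `d 1, …, d s` in `ℙⁿ` are Fano varieties, and let `n ≥ 3`. Among the
smooth complete intersections `X : f 1 = ⋯ = f s = 0`, with integral forms of these degrees with
coefficients bounded by `H`, which have points over the real numbers and over all the `p`-adic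
fields, a proportion tending to `1` as `H → ∞` has the following property, with `m = m(H) → ∞`:
every family of zero-cycles `w v` of degree zero, one for each place `v` of `ℚ`, where `w v` is
supported in points of `X(ℚ_v)` (support and multiplicities may depend on `v`), is approximated to
precision `1 / m` at the real place and at all the primes up to `m` by one zero-cycle `z` of degree
zero supported in points of `X(ℚ)`.
-/

set_option autoImplicit false

namespace Pool.Agent.Results.MP_f80667_ag.RandomDegreeZeroCycles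

/-- The systems of forms of degrees `d j` in `n + 1` variables whose coefficients are integers of
absolute value at most `H`. -/
def Systems {s : ℕ} (d : Fin s → ℕ) (n H : ℕ) : Set (Fin s → MvPolynomial (Fin (n + 1)) ℤ) :=
  {f | ∀ j, (f j).IsHomogeneous (d j) ∧ ∀ m, |(f j).coeff m| ≤ (H : ℤ)}

/-- The forms `f 1, …, f s` define a smooth complete intersection in `ℙⁿ`: at every common zero over
a field of characteristic zero the Jacobian matrix has rank `s`, that is, no nontrivial linear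
combination of the gradients of the forms vanishes there. -/
def Smooth {s n : ℕ} (f : Fin s → MvPolynomial (Fin (n + 1)) ℤ) : Prop :=
  ∀ (K : Type) [Field K] [CharZero K] (x : Fin (n + 1) → K) (l : Fin s → K), x ≠ 0 → l ≠ 0 →
    (∀ j, MvPolynomial.aeval x (f j) = 0) →
    ∃ i, ∑ j, l j * MvPolynomial.aeval x (MvPolynomial.pderiv i (f j)) ≠ 0

/-- The set `X(K)` of the points over the field `K` of the intersection `X : f 1 = ⋯ = f s = 0` in
`ℙⁿ`. -/
def Points {s n : ℕ} (f : Fin s → MvPolynomial (Fin (n + 1)) ℤ) (K : Type) [Field K] : Type :=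
  {P : Projectivization K (Fin (n + 1) → K) // ∀ j, MvPolynomial.aeval P.rep (f j) = 0}

/-- `X` has points over the real numbers and over all the `p`-adic fields. -/
def LocallySoluble {s n : ℕ} (f : Fin s → MvPolynomial (Fin (n + 1)) ℤ) : Prop :=
  Nonempty (Points f ℝ) ∧ ∀ (p : ℕ) [Fact p.Prime], Nonempty (Points f ℚ_[p])

/-- The zero-cycles of degree zero on `X` over `K` which are supported in points of `X(K)`. -/
def Cycles {s n : ℕ} (f : Fin s → MvPolynomial (Fin (n + 1)) ℤ) (K : Type) [Field K] :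
    Set (Points f K →₀ ℤ) :=
  {z | z.sum (fun _ c => c) = 0}

/-- The point `R` of `X(ℚ)` is close to the point `P` of `X(K)`, for `K = ℝ` or `K = ℚ_p`, to
precision `1 / m`: for suitable homogeneous coordinates `x` of `R` and `y` of `P` all coordinates of
`y - x` are at most `‖y‖ / m`, where `‖y‖` is the largest absolute value of a coordinate of `y`. -/
def Close (m : ℕ) {s n : ℕ} {f : Fin s → MvPolynomial (Fin (n + 1)) ℤ} {K : Type} [NormedField K]
    (P : Points f K) (R : Points f ℚ) : Prop :=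
  ∃ c : K, c ≠ 0 ∧ ∀ i, ‖P.1.rep i - c * (R.1.rep i : K)‖ ≤ ‖P.1.rep‖ / m

/-- The zero-cycle `z` over `ℚ` is close to the zero-cycle `w` over `K` to precision `1 / m`: one can
write `w = ∑ c i P i` and `z = ∑ c i R i` with the same integers `c i` and with `R i` close to `P i`
for all `i`. -/
def CloseCycles (m : ℕ) {s n : ℕ} {f : Fin s → MvPolynomial (Fin (n + 1)) ℤ} {K : Type}
    [NormedField K] (w : Points f K →₀ ℤ) (z : Points f ℚ →₀ ℤ) : Prop :=
  ∃ (r : ℕ) (c : Fin r → ℤ) (P : Fin r → Points f K) (R : Fin r → Points f ℚ),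
    w = ∑ i, Finsupp.single (P i) (c i) ∧ z = ∑ i, Finsupp.single (R i) (c i) ∧
    ∀ i, Close m (P i) (R i)

/-- Approximation of zero-cycles of degree zero to precision `1 / m` at the real place and at the
primes up to `m`: all families of zero-cycles of degree zero supported in points of `X(ℚ_p)`, for
all `p`, and in points of `X(ℝ)`, are approximated by a zero-cycle of degree zero supported in points
of `X(ℚ)`. -/
def DegreeZeroApproximation (m : ℕ) {s n : ℕ} (f : Fin s → MvPolynomial (Fin (n + 1)) ℤ) : Prop :=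
  ∀ (w : ∀ (p : ℕ) [Fact p.Prime], Points f ℚ_[p] →₀ ℤ) (y : Points f ℝ →₀ ℤ),
    (∀ (p : ℕ) [Fact p.Prime], w p ∈ Cycles f ℚ_[p]) → y ∈ Cycles f ℝ →
    ∃ z ∈ Cycles f ℚ, (∀ (p : ℕ) [Fact p.Prime], p ≤ m → CloseCycles m (w p) z) ∧
      CloseCycles m y z

open Pool.Agent.Y716.C Pool.Agent.Y716.Q

theorem exists_point {s n : ℕ} {d : Fin s → ℕ} {f : Fin s → MvPolynomial (Fin (n + 1)) ℤ}
    (hf : ∀ j, (f j).IsHomogeneous (d j)) {K : Type} [Field K] (x : Fin (n + 1) → K) (hx0 : x ≠ 0)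
    (hx : ∀ j, MvPolynomial.aeval x (f j) = 0) :
    ∃ (P : Points f K) (a : Kˣ), P.1.rep = a • x := by
  obtain ⟨a, ha⟩ := Projectivization.exists_smul_eq_mk_rep K x hx0
  refine ⟨⟨Projectivization.mk K x hx0, fun j => ?_⟩, a, ha.symm⟩
  rw [← ha]
  have h1 : (a • x : Fin (n + 1) → K) = fun i => (a : K) * x i := rfl
  rw [h1, aeval_smul' (hf j), hx j, mul_zero]

theorem approx_of_wa {s n : ℕ} {d : Fin s → ℕ} {f : Fin s → MvPolynomial (Fin (n + 1)) ℤ}
    (hf : ∀ j, (f j).IsHomogeneous (d j)) (hs : LocallySoluble f) {m : ℕ}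
    (h : WeakApproxS m f) : DegreeZeroApproximation m f := by
  classical
  intro w y hw hy
  obtain ⟨b⟩ := hs.1
  have hbp : ∀ (p : ℕ) [Fact p.Prime], ∃ _ : Points f ℚ_[p], True := fun p _ =>
    ⟨(hs.2 p).some, trivial⟩
  choose bp _ using hbp
  obtain ⟨N₁, hN₁⟩ := exists_diff y hy b
  have hNp : ∀ (p : ℕ) [Fact p.Prime], ∃ N₀ : ℕ, ∀ N, N₀ ≤ N → ∃ A B : Fin N → Points f ℚ_[p],
      w p = (∑ i, Finsupp.single (A i) (1 : ℤ)) - ∑ i, Finsupp.single (B i) (1 : ℤ) :=
    fun p _ => exists_diff (w p) (hw p) (bp p)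
  choose Np hNp using hNp
  -- a common number of points
  obtain ⟨N, hN1, hN2⟩ : ∃ N : ℕ, N₁ ≤ N ∧ ∀ (p : ℕ) [Fact p.Prime], p ≤ m → Np p ≤ N := by
    refine ⟨N₁ + ∑ p ∈ Finset.range (m + 1), (if hp : p.Prime then @Np p ⟨hp⟩ else 0),
      Nat.le_add_right _ _, ?_⟩
    intro p hpf hp
    have h1 := Finset.single_le_sum
      (f := fun p : ℕ => (if hp : p.Prime then @Np p ⟨hp⟩ else 0)) (fun _ _ => Nat.zero_le _)
      (Finset.mem_range.mpr (by omega : p < m + 1))
    simp only [dif_pos hpf.out] at h1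
    omega
  obtain ⟨A, B, hAB⟩ := hN₁ N hN1
  have hAp : ∀ (p : ℕ) [Fact p.Prime], ∃ A B : Fin N → Points f ℚ_[p], p ≤ m →
      w p = (∑ i, Finsupp.single (A i) (1 : ℤ)) - ∑ i, Finsupp.single (B i) (1 : ℤ) := by
    intro p _
    by_cases hp : p ≤ m
    · obtain ⟨A, B, h⟩ := hNp p N (hN2 p hp)
      exact ⟨A, B, fun _ => h⟩
    · exact ⟨fun _ => bp p, fun _ => bp p, fun h => absurd h hp⟩
  choose Ap Bp hABp using hAp
  -- approximation of single points
  have key : ∀ (Pp : ∀ (p : ℕ) [Fact p.Prime], Points f ℚ_[p]) (P : Points f ℝ),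
      ∃ R : Points f ℚ, (∀ (p : ℕ) [Fact p.Prime], p ≤ m → Close m (Pp p) R) ∧ Close m P R := by
    intro Pp P
    obtain ⟨x, hx0, hx, h1, h2⟩ := h (fun p _ => (Pp p).1.rep) P.1.rep
      (fun p _ => ⟨(Pp p).1.rep_nonzero, (Pp p).2⟩) P.1.rep_nonzero P.2
    obtain ⟨R, a, hR⟩ := exists_point hf x hx0 hx
    have ha0 : (a : ℚ) ≠ 0 := a.ne_zero
    have hRi : ∀ i, R.1.rep i = a * x i := fun i => by rw [hR]; rfl
    refine ⟨R, fun p hpf hp => ?_, ?_⟩
    · obtain ⟨c, hc, hci⟩ := h1 p hp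
      refine ⟨c / (a : ℚ), div_ne_zero hc (by exact_mod_cast ha0), fun i => ?_⟩
      have h3 : c / (((a : ℚ) : ℚ) : ℚ_[p]) * ((R.1.rep i : ℚ) : ℚ_[p]) = c * ((x i : ℚ) : ℚ_[p]) := by
        rw [hRi]
        push_cast
        have : (((a : ℚ) : ℚ) : ℚ_[p]) ≠ 0 := by exact_mod_cast ha0
        field_simp
      rw [h3]
      exact hci i
    · obtain ⟨c, hc, hci⟩ := h2
      refine ⟨c / (a : ℚ), div_ne_zero hc (by exact_mod_cast ha0), fun i => ?_⟩
      have h3 : c / (((a : ℚ) : ℚ) : ℝ) * ((R.1.rep i : ℚ) : ℝ) = c * ((x i : ℚ) : ℝ) := by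
        rw [hRi]
        push_cast
        have : (((a : ℚ) : ℚ) : ℝ) ≠ 0 := by exact_mod_cast ha0
        field_simp
      rw [h3]
      exact hci i
  have hRA : ∀ i : Fin N, ∃ R : Points f ℚ,
      (∀ (p : ℕ) [Fact p.Prime], p ≤ m → Close m (Ap p i) R) ∧ Close m (A i) R :=
    fun i => key (fun p _ => Ap p i) (A i)
  have hRB : ∀ i : Fin N, ∃ R : Points f ℚ,
      (∀ (p : ℕ) [Fact p.Prime], p ≤ m → Close m (Bp p i) R) ∧ Close m (B i) R :=
    fun i => key (fun p _ => Bp p i) (B i)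
  choose R hR1 hR2 using hRA
  choose T hT1 hT2 using hRB
  have hsum : ∀ {X : Type} (U V : Fin N → X),
      (∑ i, Finsupp.single (U i) (1 : ℤ)) - ∑ i, Finsupp.single (V i) (1 : ℤ) =
      ∑ i : Fin (N + N), Finsupp.single (Fin.append U V i)
        (Fin.append (fun _ : Fin N => (1 : ℤ)) (fun _ : Fin N => (-1 : ℤ)) i) := by
    intro X U V
    rw [Fin.sum_univ_add]
    simp only [Fin.append_left, Fin.append_right, Finsupp.single_neg, Finset.sum_neg_distrib]
    rw [sub_eq_add_neg]
  have hclose : ∀ {K : Type} [NormedField K] (U V : Fin N → Points f K),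
      (∀ i, Close m (U i) (R i)) → (∀ i, Close m (V i) (T i)) →
      CloseCycles m ((∑ i, Finsupp.single (U i) (1 : ℤ)) - ∑ i, Finsupp.single (V i) (1 : ℤ))
        ((∑ i, Finsupp.single (R i) (1 : ℤ)) - ∑ i, Finsupp.single (T i) (1 : ℤ)) := by
    intro K _ U V hU hV
    refine ⟨N + N, Fin.append (fun _ : Fin N => (1 : ℤ)) (fun _ : Fin N => (-1 : ℤ)),
      Fin.append U V, Fin.append R T, hsum U V, hsum R T, fun i => ?_⟩
    refine Fin.addCases (fun i => ?_) (fun i => ?_) i
    · rw [Fin.append_left, Fin.append_left]; exact hU i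
    · rw [Fin.append_right, Fin.append_right]; exact hV i
  refine ⟨(∑ i, Finsupp.single (R i) (1 : ℤ)) - ∑ i, Finsupp.single (T i) (1 : ℤ), ?_, ?_, ?_⟩
  · have hdeg : ∀ {X : Type} (U : Fin N → X),
        (∑ i, Finsupp.single (U i) (1 : ℤ)).sum (fun _ c => c) = (N : ℤ) := by
      intro X U
      rw [← Finsupp.sum_finset_sum_index (fun _ => rfl) (fun _ _ _ => rfl)]
      simp
    change ((∑ i, Finsupp.single (R i) (1 : ℤ)) -
      ∑ i, Finsupp.single (T i) (1 : ℤ)).sum (fun _ c => c) = 0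
    rw [Finsupp.sum_sub_index (fun _ _ _ => rfl), hdeg, hdeg, sub_self]
  · intro p hpf hp
    rw [hABp p hp]
    exact hclose (Ap p) (Bp p) (fun i => hR1 i p hp) (fun i => hT1 i p hp)
  · rw [hAB]
    exact hclose A B hR2 hT2

/-- For degrees `d j ≥ 2` with `∑ d j ≤ n` and for `n ≥ 3` there is a function `m` tending to
infinity such that 100% of the everywhere locally soluble smooth complete intersections of
hypersurfaces of degrees `d j` in `ℙⁿ` of height at most `H` have the approximation property for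
zero-cycles of degree zero to precision `1 / m(H)` at the real place and at the primes up to
`m(H)`. -/
theorem result (s n : ℕ) (d : Fin s → ℕ) (hs : 1 ≤ s) (hd : ∀ j, 2 ≤ d j) (hdn : ∑ j, d j ≤ n)
    (hn : 3 ≤ n) :
    ∃ m : ℕ → ℕ, Filter.Tendsto m Filter.atTop Filter.atTop ∧
      Filter.Tendsto (fun H : ℕ =>
        (({f | f ∈ Systems d n H ∧ Smooth f ∧ LocallySoluble f ∧
          DegreeZeroApproximation (m H) f} : Set _).ncard : ℝ) /
        (({f | f ∈ Systems d n H ∧ Smooth f ∧ LocallySoluble f} : Set _).ncard : ℝ))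
      Filter.atTop (nhds 1) := by
  classical
  obtain ⟨e, he⟩ : ∃ e : Fin s → ℕ, ∀ j, d j = e j + 2 :=
    ⟨fun j => d j - 2, fun j => by have := hd j; dsimp only; omega⟩
  obtain rfl : d = fun j => e j + 2 := funext he
  obtain ⟨hd1, hd2⟩ := Pool.Agent.Y716.D.dims hs hn hdn
  obtain ⟨m, hm, h⟩ := Pool.Agent.Y716.D.wa_smooth_all (Fin (n + 1)) hs hd1 e hd2
  refine ⟨m, hm, ?_⟩
  have hLS : ∀ f : Fin s → MvPolynomial (Fin (n + 1)) ℤ, (∀ j, (f j).IsHomogeneous (e j + 2)) →
      (LocallySoluble f ↔ ElsS f) := by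
    intro f hf
    have h1 : ∀ (K : Type) [Field K], Nonempty (Points f K) ↔
        ∃ x : Fin (n + 1) → K, x ≠ 0 ∧ ∀ j, MvPolynomial.aeval x (f j) = 0 := by
      intro K _
      constructor
      · rintro ⟨P⟩
        exact ⟨P.1.rep, P.1.rep_nonzero, P.2⟩
      · rintro ⟨x, hx0, hx⟩
        obtain ⟨P, -⟩ := exists_point (d := fun j => e j + 2) hf x hx0 hx
        exact ⟨P⟩
    unfold LocallySoluble ElsS
    rw [h1 ℝ]
    refine and_congr_right (fun _ => ?_)
    exact forall_congr' fun p => forall_congr' fun hp => h1 ℚ_[p]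
  have hden : ∀ H : ℕ, ({f | f ∈ Systems (fun j => e j + 2) n H ∧ Smooth f ∧
      LocallySoluble f} : Set (Fin s → MvPolynomial (Fin (n + 1)) ℤ)) =
      {f | (∀ j, (f j).IsHomogeneous (e j + 2) ∧ ∀ m, |(f j).coeff m| ≤ (H : ℤ)) ∧
        Pool.Agent.Y697.C13.SmoothS f ∧ ElsS f} := by
    intro H
    ext f
    refine and_congr_right (fun hf => and_congr_right (fun _ => ?_))
    exact hLS f (fun j => (hf j).1)
  have hfin : ∀ H : ℕ, ({f | f ∈ Systems (fun j => e j + 2) n H ∧ Smooth f ∧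
      LocallySoluble f} : Set (Fin s → MvPolynomial (Fin (n + 1)) ℤ)).Finite := by
    intro H
    apply Set.Finite.subset (Finset.finite_toSet (sysZ (Fin (n + 1)) e (H : ℝ)))
    intro f hf
    rw [Finset.mem_coe, mem_sysZ]
    intro j
    refine ⟨(hf.1 j).1, fun μ => ?_⟩
    have h1 := (hf.1 j).2 μ
    have h2 : ((|(f j).coeff μ| : ℤ) : ℝ) ≤ ((H : ℤ) : ℝ) := by exact_mod_cast h1
    simpa using h2
  refine tendsto_of_tendsto_of_tendsto_of_le_of_le h tendsto_const_nhds (fun H => ?_) (fun H => ?_)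
  · simp only
    rw [← hden H]
    apply div_le_div_of_nonneg_right _ (Nat.cast_nonneg _)
    apply Nat.cast_le.mpr
    apply Set.ncard_le_ncard
    · rintro f ⟨hf, hsm, hels, hwa⟩
      have hf' : ∀ j, (f j).IsHomogeneous (e j + 2) := fun j => (hf j).1
      have hls := (hLS f hf').mpr hels
      exact ⟨hf, hsm, hls, approx_of_wa (d := fun j => e j + 2) hf' hls hwa⟩
    · exact (hfin H).subset (fun f hf => ⟨hf.1, hf.2.1, hf.2.2.1⟩)
  · simp only
    apply div_le_one_of_le₀ _ (Nat.cast_nonneg _)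
    apply Nat.cast_le.mpr
    exact Set.ncard_le_ncard (fun f hf => ⟨hf.1, hf.2.1, hf.2.2.1⟩) (hfin H)

end Pool.Agent.Results.MP_f80667_ag.RandomDegreeZeroCycles
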